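import Pool.Agent.Q174.HF.Check

/-! # The diagrams of the sequence from a matched diagram to the standard diagram of 8_18 -/

set_option maxRecDepth 100000

namespace Q174.MD.Ex

open Q174.HF

/-- Diagram number 0 of the sequence. -/
def D0 : Diagram := mkDiagram 12 [7, 6, 28, 37, 12, 21, 1, 0, 13, 36, 44, 14, 4, 8, 11, 18, 23, 22, 15, 47, 25, 5, 17, 16, 29, 20, 42, 30, 2, 24, 27, 34, 39, 38, 31, 41, 9, 3, 33, 32, 45, 35, 26, 46, 10, 40, 43, 19]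
  [0, 1, 2, 3, 4, 1, 0, 3, 3, 5, 6, 7, 3, 7, 6, 4, 8, 4, 6, 9, 1, 4, 8, 9, 1, 9, 10, 11, 1, 11, 10, 2, 12, 2, 10, 5, 3, 2, 12, 5, 5, 10, 9, 13, 5, 13, 9, 6]
  (by decide) (by decide) (by decide) (by decide) (by decide)

/-- Diagram number 1 of the sequence. -/
def D1 : Diagram := mkDiagram 14 [7, 6, 28, 37, 12, 21, 1, 0, 13, 36, 44, 50, 4, 8, 52, 18, 23, 22, 15, 55, 25, 5, 17, 16, 29, 20, 42, 30, 2, 24, 27, 34, 39, 38, 31, 41, 9, 3, 33, 32, 45, 35, 26, 46, 10, 40, 43, 51, 54, 53, 11, 47, 14, 49, 48, 19]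
  [0, 1, 2, 3, 4, 1, 0, 3, 3, 5, 6, 7, 3, 7, 8, 4, 9, 4, 8, 10, 1, 4, 9, 10, 1, 10, 11, 12, 1, 12, 11, 2, 13, 2, 11, 5, 3, 2, 13, 5, 5, 11, 10, 14, 5, 14, 10, 6, 15, 7, 6, 10, 7, 15, 10, 8]
  (by decide) (by decide) (by decide) (by decide) (by decide)

/-- Diagram number 2 of the sequence. -/
def D2 : Diagram := mkDiagram 14 [7, 6, 28, 37, 52, 21, 1, 0, 18, 36, 44, 50, 54, 16, 48, 23, 13, 53, 8, 49, 25, 5, 55, 15, 29, 20, 42, 30, 2, 24, 27, 34, 39, 38, 31, 41, 9, 3, 33, 32, 45, 35, 26, 46, 10, 40, 43, 51, 14, 19, 11, 47, 4, 17, 12, 22]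
  [0, 1, 2, 3, 4, 1, 0, 3, 3, 5, 6, 7, 8, 9, 10, 11, 8, 3, 7, 9, 1, 4, 11, 10, 1, 10, 12, 13, 1, 13, 12, 2, 14, 2, 12, 5, 3, 2, 14, 5, 5, 12, 10, 15, 5, 15, 10, 6, 9, 7, 6, 10, 3, 8, 11, 4]
  (by decide) (by decide) (by decide) (by decide) (by decide)

/-- Diagram number 3 of the sequence. -/
def D3 : Diagram := mkDiagram 14 [21, 52, 28, 37, 12, 15, 54, 23, 18, 36, 44, 50, 4, 16, 48, 5, 13, 22, 8, 49, 53, 0, 17, 7, 29, 55, 42, 30, 2, 24, 27, 34, 39, 38, 31, 41, 9, 3, 33, 32, 45, 35, 26, 46, 10, 40, 43, 51, 14, 19, 11, 47, 1, 20, 6, 25]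
  [0, 1, 2, 3, 4, 5, 6, 7, 3, 8, 9, 10, 7, 11, 5, 4, 7, 3, 10, 11, 0, 3, 7, 6, 1, 5, 12, 13, 1, 13, 12, 2, 14, 2, 12, 8, 3, 2, 14, 8, 8, 12, 5, 15, 8, 15, 5, 9, 11, 10, 9, 5, 0, 6, 5, 1]
  (by decide) (by decide) (by decide) (by decide) (by decide)

/-- Diagram number 4 of the sequence. -/
def D4 : Diagram := mkDiagram 12 [13, 44, 20, 29, 10, 28, 36, 42, 15, 14, 4, 41, 45, 0, 9, 8, 21, 47, 34, 22, 2, 16, 19, 26, 31, 30, 23, 33, 5, 3, 25, 24, 37, 27, 18, 38, 6, 32, 35, 43, 46, 11, 7, 39, 1, 12, 40, 17]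
  [0, 1, 2, 3, 3, 4, 5, 6, 7, 3, 6, 8, 0, 3, 7, 8, 1, 9, 10, 11, 1, 11, 10, 2, 12, 2, 10, 4, 3, 2, 12, 4, 4, 10, 9, 13, 4, 13, 9, 5, 8, 6, 5, 9, 0, 8, 9, 1]
  (by decide) (by decide) (by decide) (by decide) (by decide)

/-- Diagram number 5 of the sequence. -/
def D5 : Diagram := mkDiagram 12 [13, 44, 20, 29, 15, 40, 8, 46, 6, 43, 36, 39, 45, 0, 41, 4, 21, 47, 34, 22, 2, 16, 19, 26, 31, 30, 23, 33, 42, 3, 25, 24, 37, 27, 18, 38, 10, 32, 35, 11, 5, 14, 28, 9, 1, 12, 7, 17]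
  [0, 1, 2, 3, 4, 5, 6, 7, 5, 8, 9, 6, 0, 3, 4, 7, 1, 6, 10, 11, 1, 11, 10, 2, 12, 2, 10, 8, 3, 2, 12, 8, 8, 10, 6, 13, 8, 13, 6, 9, 4, 3, 8, 5, 0, 7, 6, 1]
  (by decide) (by decide) (by decide) (by decide) (by decide)

/-- Diagram number 6 of the sequence. -/
def D6 : Diagram := mkDiagram 10 [9, 36, 16, 25, 11, 32, 31, 38, 37, 0, 33, 4, 17, 39, 30, 18, 2, 12, 15, 22, 27, 26, 19, 29, 34, 3, 21, 20, 35, 23, 14, 6, 5, 10, 24, 28, 1, 8, 7, 13]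
  [0, 1, 2, 3, 4, 5, 6, 7, 0, 3, 4, 7, 1, 6, 8, 9, 1, 9, 8, 2, 10, 2, 8, 11, 3, 2, 10, 11, 11, 8, 6, 5, 4, 3, 11, 5, 0, 7, 6, 1]
  (by decide) (by decide) (by decide) (by decide) (by decide)

/-- Diagram number 7 of the sequence. -/
def D7 : Diagram := mkDiagram 12 [9, 36, 16, 25, 11, 32, 31, 38, 37, 0, 33, 4, 17, 39, 30, 42, 2, 12, 44, 22, 27, 26, 19, 47, 34, 3, 21, 20, 35, 43, 14, 6, 5, 10, 24, 28, 1, 8, 7, 13, 46, 45, 15, 29, 18, 41, 40, 23]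
  [0, 1, 2, 3, 4, 5, 6, 7, 0, 3, 4, 7, 1, 6, 8, 9, 1, 9, 10, 2, 11, 2, 10, 12, 3, 2, 11, 12, 12, 8, 6, 5, 4, 3, 12, 5, 0, 7, 6, 1, 13, 9, 8, 12, 9, 13, 12, 10]
  (by decide) (by decide) (by decide) (by decide) (by decide)

/-- Diagram number 8 of the sequence. -/
def D8 : Diagram := mkDiagram 12 [9, 36, 44, 25, 11, 32, 31, 38, 37, 0, 33, 4, 22, 39, 30, 42, 46, 20, 40, 27, 17, 45, 12, 41, 34, 3, 47, 19, 35, 43, 14, 6, 5, 10, 24, 28, 1, 8, 7, 13, 18, 23, 15, 29, 2, 21, 16, 26]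
  [0, 1, 2, 3, 4, 5, 6, 7, 0, 3, 4, 7, 1, 6, 8, 9, 10, 11, 12, 13, 10, 1, 9, 11, 3, 2, 13, 12, 12, 8, 6, 5, 4, 3, 12, 5, 0, 7, 6, 1, 11, 9, 8, 12, 1, 10, 13, 2]
  (by decide) (by decide) (by decide) (by decide) (by decide)

/-- Diagram number 9 of the sequence. -/
def D9 : Diagram := mkDiagram 12 [9, 36, 16, 19, 11, 32, 31, 38, 37, 0, 33, 4, 22, 39, 30, 42, 2, 25, 44, 3, 27, 26, 12, 41, 45, 17, 21, 20, 35, 43, 14, 6, 5, 10, 47, 28, 1, 8, 7, 13, 46, 23, 15, 29, 18, 24, 40, 34]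
  [0, 1, 2, 3, 4, 5, 6, 7, 0, 3, 4, 7, 1, 6, 8, 9, 1, 10, 3, 2, 11, 1, 9, 12, 10, 1, 11, 12, 13, 8, 6, 5, 4, 3, 13, 5, 0, 7, 6, 1, 12, 9, 8, 13, 10, 12, 13, 3]
  (by decide) (by decide) (by decide) (by decide) (by decide)

/-- Diagram number 10 of the sequence. -/
def D10 : Diagram := mkDiagram 10 [7, 24, 23, 30, 29, 36, 25, 0, 14, 31, 22, 34, 19, 18, 8, 33, 37, 28, 13, 12, 27, 35, 10, 2, 1, 6, 39, 20, 17, 4, 3, 9, 38, 15, 11, 21, 5, 16, 32, 26]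
  [0, 1, 2, 3, 4, 5, 0, 3, 6, 2, 7, 8, 9, 6, 8, 10, 4, 6, 9, 10, 11, 7, 2, 1, 0, 5, 11, 1, 4, 3, 2, 6, 10, 8, 7, 11, 4, 10, 11, 5]
  (by decide) (by decide) (by decide) (by decide) (by decide)

/-- Diagram number 11 of the sequence. -/
def D11 : Diagram := mkDiagram 10 [7, 24, 35, 30, 29, 36, 25, 0, 20, 32, 27, 38, 19, 18, 22, 21, 37, 28, 13, 12, 8, 15, 14, 33, 1, 6, 39, 10, 17, 4, 3, 34, 9, 23, 31, 2, 5, 16, 11, 26]
  [0, 1, 2, 3, 4, 5, 0, 3, 6, 1, 7, 8, 9, 10, 11, 8, 4, 10, 9, 8, 8, 11, 10, 6, 0, 5, 7, 1, 4, 3, 2, 10, 6, 10, 2, 1, 4, 8, 7, 5]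
  (by decide) (by decide) (by decide) (by decide) (by decide)

/-- Diagram number 12 of the sequence. -/
def D12 : Diagram := mkDiagram 8 [7, 16, 27, 22, 21, 28, 17, 0, 15, 24, 19, 30, 29, 20, 25, 8, 1, 6, 31, 10, 13, 4, 3, 26, 9, 14, 23, 2, 5, 12, 11, 18]
  [0, 1, 2, 3, 4, 5, 0, 3, 6, 1, 7, 8, 4, 9, 6, 8, 0, 5, 7, 1, 4, 3, 2, 9, 6, 9, 2, 1, 4, 8, 7, 5]
  (by decide) (by decide) (by decide) (by decide) (by decide)

def iota0 : Fin 12 → Fin 14 := ![0, 1, 2, 3, 4, 5, 6, 7, 8, 9, 10, 11]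

theorem step0 : Diagram.R2 D1 D0 :=
  R2_of_check (n := 14) (m := 12) (13, 1) (12, 0) (by decide) (by decide) (by decide) (by decide)
    (by decide) iota0 (by decide) (by decide) 8 (by decide)

theorem step1 : Diagram.R3 D1 D2 :=
  R3_of_check (n := 14) (13, 3) (4, 2) (3, 2) (by decide) (by decide) (by decide) (by decide)
    (by decide) (by decide) (by decide) (by decide) (by decide) (by decide)

theorem step2 : Diagram.R3 D2 D3 :=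
  R3_of_check (n := 14) (5, 1) (1, 0) (13, 3) (by decide) (by decide) (by decide) (by decide)
    (by decide) (by decide) (by decide) (by decide) (by decide) (by decide)

def iota3 : Fin 12 → Fin 14 := ![0, 2, 4, 5, 6, 7, 8, 9, 10, 11, 12, 13]

theorem step3 : Diagram.R2 D3 D4 :=
  R2_of_check (n := 14) (m := 12) (3, 3) (1, 0) (by decide) (by decide) (by decide) (by decide)
    (by decide) iota3 (by decide) (by decide) 8 (by decide)

theorem step4 : Diagram.R3 D4 D5 :=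
  R3_of_check (n := 12) (10, 1) (2, 2) (1, 3) (by decide) (by decide) (by decide) (by decide)
    (by decide) (by decide) (by decide) (by decide) (by decide) (by decide)

def iota5 : Fin 10 → Fin 12 := ![0, 1, 3, 4, 5, 6, 7, 8, 10, 11]

theorem step5 : Diagram.R2 D5 D6 :=
  R2_of_check (n := 12) (m := 10) (9, 3) (2, 2) (by decide) (by decide) (by decide) (by decide)
    (by decide) iota5 (by decide) (by decide) 8 (by decide)

def iota6 : Fin 10 → Fin 12 := ![0, 1, 2, 3, 4, 5, 6, 7, 8, 9]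

theorem step6 : Diagram.R2 D7 D6 :=
  R2_of_check (n := 12) (m := 10) (11, 1) (10, 0) (by decide) (by decide) (by decide) (by decide)
    (by decide) iota6 (by decide) (by decide) 8 (by decide)

theorem step7 : Diagram.R3 D7 D8 :=
  R3_of_check (n := 12) (11, 3) (5, 2) (4, 2) (by decide) (by decide) (by decide) (by decide)
    (by decide) (by decide) (by decide) (by decide) (by decide) (by decide)

theorem step8 : Diagram.R3 D8 D9 :=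
  R3_of_check (n := 12) (4, 3) (6, 2) (11, 2) (by decide) (by decide) (by decide) (by decide)
    (by decide) (by decide) (by decide) (by decide) (by decide) (by decide)

def iota9 : Fin 10 → Fin 12 := ![1, 2, 3, 5, 6, 7, 8, 9, 10, 11]

theorem step9 : Diagram.R2 D9 D10 :=
  R2_of_check (n := 12) (m := 10) (4, 3) (0, 2) (by decide) (by decide) (by decide) (by decide)
    (by decide) iota9 (by decide) (by decide) 8 (by decide)

theorem step10 : Diagram.R3 D10 D11 :=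
  R3_of_check (n := 10) (5, 1) (8, 2) (2, 2) (by decide) (by decide) (by decide) (by decide)
    (by decide) (by decide) (by decide) (by decide) (by decide) (by decide)

def iota11 : Fin 8 → Fin 10 := ![0, 1, 2, 4, 6, 7, 8, 9]

theorem step11 : Diagram.R2 D11 D12 :=
  R2_of_check (n := 10) (m := 8) (5, 1) (3, 2) (by decide) (by decide) (by decide) (by decide)
    (by decide) iota11 (by decide) (by decide) 8 (by decide)

end Q174.MD.Ex
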