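import Pool.Agent.Q174.HF.Defs

/-!
# Matched diagrams, bipartite knots, closures of braids

Knot diagrams on the sphere (`Q174.HF.Diagram`) and Reidemeister moves
(`Q174.HF.Diagram.Move`) are defined in `Pool.Agent.Q174.HF.Defs`.
-/

namespace Q174.HF

namespace Diagram

/-- `D` and `E` are diagrams of the same knot: they are joined by a finite sequence of
Reidemeister moves and their inverses. -/
def SameKnot (D E : Diagram) : Prop := Relation.ReflTransGen Move D E

/-- `o` is an orientation of the knot: `o d` says that the knot is oriented away from the
crossing along the half-edge `d`.  (A knot diagram has two orientations, opposite to each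
other.) -/
def IsOrientation (D : Diagram) (o : Dart D.n → Bool) : Prop :=
  ∀ d, o (D.opp d) = !o d ∧ o (thru d) = !o d

/-- The crossings `u` and `v` form a matched pair.  They are different, and joined by two
edges bounding a face with two sides: the side of the half-edge `x` runs from `u` to `v`, the
side of the half-edge `y` runs from `v` to `u`.  The two crossings are consecutive crossings
of a twist region: the side of `x` passes over at one end and under at the other end (and
therefore so does the side of `y`), so that they cannot be removed by a second Reidemeister
move.  The two strands run in opposite directions: if the knot runs along the side of `x`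
from `u` to `v`, then it runs along the side of `y` from `v` to `u`, and conversely. -/
def MatchedPair (D : Diagram) (u v : Fin D.n) : Prop :=
  u ≠ v ∧ ∃ x y : Dart D.n, x.1 = u ∧ y.1 = v ∧ D.next x = y ∧ D.next y = x ∧
    (IsOver x ↔ ¬ IsOver (D.opp x)) ∧ (IsOver y ↔ ¬ IsOver (D.opp y)) ∧
    (∃ o, D.IsOrientation o) ∧ ∀ o, D.IsOrientation o → o x = o y

/-- `D` is matched: its set of crossings can be partitioned into matched pairs; the crossing
`v` is paired with the crossing `mate v`. -/
def IsMatched (D : Diagram) : Prop :=
  ∃ mate : Fin D.n → Fin D.n, ∀ v, mate (mate v) = v ∧ D.MatchedPair v (mate v)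

/-- The knot with the diagram `K` is bipartite: it has a matched diagram. -/
def IsBipartite (K : Diagram) : Prop := ∃ D, K.SameKnot D ∧ D.IsMatched

end Diagram

/-- A letter of a braid word: `(i, true)` is the generator number `i` (`i = 0, 1, …`) and
`(i, false)` is its inverse.  It is a crossing of the strands at the positions `i` and
`i + 1`; the positions are numbered `0, 1, 2, …` from left to right, and braids run
upwards. -/
abbrev Letter : Type := ℕ × Bool

/-- The corners of the crossing `a` are numbered `0` (lower right), `1` (upper right),
`2` (upper left), `3` (lower left); `position a k` is the position of the strand at the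
corner `k`. -/
def position (a : Letter) (k : Fin 4) : ℕ := if k = 0 ∨ k = 1 then a.1 + 1 else a.1

/-- In the closure of the braid word `w` the crossing number `c'` is the first crossing after
the crossing number `c` (in the cyclic order of the word) at which there is a strand at the
position `p`. -/
def FirstAfter {n : ℕ} [NeZero n] (w : Fin n → Letter) (p : ℕ) (c c' : Fin n) : Prop :=
  (∃ k, position (w c') k = p) ∧
    ∃ m : ℕ, 0 < m ∧ c' = c + Fin.ofNat n m ∧
      ∀ j : ℕ, 0 < j → j < m → ∀ k, position (w (c + Fin.ofNat n j)) k ≠ p

/-- `K` is (up to isotopy of the sphere) the standard diagram of the closure of the braid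
word `w`: its crossings are the letters of the word, at the crossing of a generator the strand
from the lower left to the upper right corner passes over, at the crossing of the inverse of a
generator it passes under, and the strand leaving a crossing at an upper corner arrives at the
lower corner with the same position of the next crossing having a strand at this position. -/
def IsClosure {n : ℕ} [NeZero n] (w : Fin n → Letter) (K : Diagram) : Prop :=
  ∃ φ : Dart n ≃ Dart K.n,
    (∀ d, φ (rot d) = rot (φ d)) ∧
    (∀ c k, IsOver (φ (c, k)) ↔ ((k = 1 ∨ k = 3) ↔ (w c).2 = true)) ∧
    ∀ c c' : Fin n, ∀ k k' : Fin 4, (k = 1 ∨ k = 2) → (k' = 0 ∨ k' = 3) →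
      position (w c) k = position (w c') k' → FirstAfter w (position (w c) k) c c' →
      K.opp (φ (c, k)) = φ (c', k')

/-- The braid word `(a b⁻¹)⁴` on three strands where `a` and `b` are the two generators
(for `s = true`), or the two inverse generators (for `s = false`). -/
def word (s : Bool) : Fin 8 → Letter := fun c => if c.val % 2 = 0 then (0, s) else (1, !s)

end Q174.HF
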