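import Pool.Agent.Q174.MD.Defs
import Pool.Agent.Q174.MD.Data

/-! # The knot 8_18 is bipartite -/

set_option maxRecDepth 100000

namespace Q174.MD

open Q174.HF

/-! ## General facts -/

theorem Move.symm {D E : Diagram} (h : D.Move E) : E.Move D := by
  unfold Diagram.Move at *
  tauto

theorem SameKnot.symm {D E : Diagram} (h : D.SameKnot E) : E.SameKnot D := by
  induction h with
  | refl => exact Relation.ReflTransGen.refl
  | tail _ h ih => exact Relation.ReflTransGen.head (Move.symm h) ih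

/-- Erasing crossings only depends on the resulting diagram up to isotopy. -/
theorem erase_iso {D E K : Diagram} {S : Set (Fin D.n)} (h : D.Erase S E)
    (θ : Dart K.n → Dart E.n) (hθ : Function.Bijective θ)
    (hr : ∀ d, θ (rot d) = rot (θ d)) (ho : ∀ d, IsOver (θ d) ↔ IsOver d)
    (hop : ∀ d, θ (K.opp d) = E.opp (θ d)) : D.Erase S K := by
  obtain ⟨φ, hinj, hran, hrot, hov, hf⟩ := h
  refine ⟨φ ∘ θ, hinj.comp hθ.1, ?_, ?_, ?_, ?_⟩
  · intro d
    rw [← hran, hθ.2.range_comp]
  · intro d
    simp only [Function.comp_apply, hr, hrot]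
  · intro d
    simp only [Function.comp_apply, hov, ho]
  · intro d
    simp only [Function.comp_apply, hop]
    exact hf _

theorem R2_iso {D E K : Diagram} (h : D.R2 E)
    (θ : Dart K.n → Dart E.n) (hθ : Function.Bijective θ)
    (hr : ∀ d, θ (rot d) = rot (θ d)) (ho : ∀ d, IsOver (θ d) ↔ IsOver d)
    (hop : ∀ d, θ (K.opp d) = E.opp (θ d)) : D.R2 K := by
  obtain ⟨x, y, h1, h2, h3, h4, h5, h6⟩ := h
  exact ⟨x, y, h1, h2, h3, h4, h5, erase_iso h6 θ hθ hr ho hop⟩

/-- Two orientations of a knot diagram are equal or opposite. -/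
theorem orientation_unique {D : Diagram} {o o' : Dart D.n → Bool} (h : D.IsOrientation o)
    (h' : D.IsOrientation o') : (∀ d, o d = o' d) ∨ ∀ d, o d = !o' d := by
  by_cases hS : ({d | o d = o' d} : Set (Dart D.n)).Nonempty
  · left
    have := D.knot {d | o d = o' d} hS ?_ ?_
    · intro d
      have h1 : d ∈ ({d | o d = o' d} : Set (Dart D.n)) := by rw [this]; trivial
      exact h1
    · intro d hd
      simp only [Set.mem_ofPred_eq] at hd ⊢
      rw [(h d).1, (h' d).1, hd]
    · intro d hd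
      simp only [Set.mem_ofPred_eq] at hd ⊢
      rw [(h d).2, (h' d).2, hd]
  · right
    intro d
    by_contra hne
    apply hS
    refine ⟨d, ?_⟩
    simp only [Set.mem_ofPred_eq]
    revert hne
    cases o d <;> cases o' d <;> simp

/-! ## The matched diagram -/

/-- An orientation of the matched diagram. -/
def ori : Dart Ex.D0.n → Bool := fun d => ([true, false, false, true, false, true, true, false, false, false, true, true, true, true, false, false, false, true, true, false, true, false, false, true, false, false, true, true, true, true, false, false, false, true, true, false, true, false, false, true, true, true, false, false, false, false, true, true] : List Bool).getD (4 * d.1.val + d.2.val) false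

theorem isOrientation_ori : Ex.D0.IsOrientation ori := by
  have h : ∀ a : Fin 12, ∀ b : Fin 4, ori (Ex.D0.opp (a, b)) = !ori (a, b) ∧
      ori (thru (a, b)) = !ori (a, b) := by decide
  exact fun d => h d.1 d.2

/-- The crossing paired with a given one. -/
def mate : Fin 12 → Fin 12 := ![1, 0, 3, 2, 5, 4, 7, 6, 9, 8, 11, 10]

/-- The sides of the bigons. -/
def side : Fin 12 → Fin 4 := ![0, 2, 3, 1, 0, 2, 3, 1, 0, 2, 3, 1]

/-- The involution of the matched diagram. -/
def opp0 : Dart 12 → Dart 12 := Ex.D0.opp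

theorem isMatched : Ex.D0.IsMatched := by
  refine ⟨mate, ?_⟩
  have h : ∀ v : Fin 12, mate (mate v) = v ∧ v ≠ mate v ∧
      rotBack (opp0 (v, side v)) = (mate v, side (mate v)) ∧
      rotBack (opp0 (mate v, side (mate v))) = (v, side v) ∧
      (IsOver ((v, side v) : Dart 12) ↔ ¬ IsOver (opp0 (v, side v))) ∧
      ori (v, side v) = ori (mate v, side (mate v)) := by decide
  intro v
  obtain ⟨h1, h2, h3, h4, h5, h6⟩ := h v
  have h5' := (h (mate v)).2.2.2.2.1
  refine ⟨h1, h2, (v, side v), (mate v, side (mate v)), rfl, rfl, h3, h4, h5, h5',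
    ⟨ori, isOrientation_ori⟩, ?_⟩
  intro o ho
  rcases orientation_unique ho isOrientation_ori with h7 | h7
  · rw [h7, h7, h6]
  · rw [h7, h7, h6]

/-! ## The closure of the braid -/

/-- The edges of the closure of the braid word. -/
def join : Dart 8 → Dart 8 := fun d =>
  if d.1.val % 2 = 0 then
    (match d.2 with
      | 0 => (d.1 + 7, 2)
      | 1 => (d.1 + 1, 3)
      | 2 => (d.1 + 2, 3)
      | 3 => (d.1 + 6, 2))
  else
    (match d.2 with
      | 0 => (d.1 + 6, 1)
      | 1 => (d.1 + 2, 0)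
      | 2 => (d.1 + 1, 0)
      | 3 => (d.1 + 7, 1))

theorem join_join : ∀ a : Fin 8, ∀ b : Fin 4, join (join (a, b)) = (a, b) := by decide

theorem join_bottom : ∀ a : Fin 8, ∀ b : Fin 4, (b = 0 ∨ b = 3) →
    (join (a, b)).2 = 1 ∨ (join (a, b)).2 = 2 := by decide

instance (a : Letter) (p : ℕ) : Decidable (∃ k, position a k = p) :=
  inferInstanceAs (Decidable (∃ k : Fin 4, position a k = p))

theorem join_top (s : Bool) : ∀ c : Fin 8, ∀ k : Fin 4, (k = 1 ∨ k = 2) →
    ((join (c, k)).2 = 0 ∨ (join (c, k)).2 = 3) ∧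
    position (word s c) k = position (word s (join (c, k)).1) (join (c, k)).2 ∧
    FirstAfter (word s) (position (word s c) k) c (join (c, k)).1 := by
  have h : ∀ s : Bool, ∀ c : Fin 8, ∀ k : Fin 4, (k = 1 ∨ k = 2) →
    ((join (c, k)).2 = 0 ∨ (join (c, k)).2 = 3) ∧
    position (word s c) k = position (word s (join (c, k)).1) (join (c, k)).2 ∧
    (∃ k', position (word s (join (c, k)).1) k' = position (word s c) k) ∧
    ((join (c, k)).1 = c + Fin.ofNat 8 1 ∨ ((join (c, k)).1 = c + Fin.ofNat 8 2 ∧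
      ∀ k', position (word s (c + Fin.ofNat 8 1)) k' ≠ position (word s c) k)) := by decide
  intro c k hk
  obtain ⟨h1, h2, h3, h4⟩ := h s c k hk
  refine ⟨h1, h2, h3, ?_⟩
  rcases h4 with h4 | ⟨h4, h5⟩
  · exact ⟨1, by norm_num, h4, fun j h6 h7 => by omega⟩
  · refine ⟨2, by norm_num, h4, fun j h6 h7 => ?_⟩
    obtain rfl : j = 1 := by omega
    exact h5

theorem opp_of_isClosure {s : Bool} {K : Diagram} {φ : Dart 8 ≃ Dart K.n}
    (h : ∀ c c' : Fin 8, ∀ k k' : Fin 4, (k = 1 ∨ k = 2) → (k' = 0 ∨ k' = 3) →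
      position (word s c) k = position (word s c') k' →
      FirstAfter (word s) (position (word s c) k) c c' →
      K.opp (φ (c, k)) = φ (c', k')) (d : Dart 8) : K.opp (φ d) = φ (join d) := by
  have top : ∀ c : Fin 8, ∀ k : Fin 4, (k = 1 ∨ k = 2) →
      K.opp (φ (c, k)) = φ (join (c, k)) := by
    intro c k hk
    obtain ⟨h1, h2, h3⟩ := join_top s c k hk
    exact h c _ k _ hk h1 h2 h3
  obtain ⟨c, k⟩ := d
  by_cases hk : k = 1 ∨ k = 2
  · exact top c k hk
  · have hk' : k = 0 ∨ k = 3 := by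
      revert hk; revert k; decide
    have h2 := top (join (c, k)).1 (join (c, k)).2 (join_bottom c k hk')
    rw [Prod.mk.eta, join_join] at h2
    rw [← h2, K.opp_opp]

/-- The identification of the corners of the braid word with the half-edges of the last
diagram of the sequence. -/
def psi (s : Bool) : Dart 8 → Dart 8 := fun d =>
  ((cond s ![1, 0, 5, 6, 3, 2, 7, 4] ![0, 1, 4, 7, 2, 3, 6, 5] : Fin 8 → Fin 8) d.1, d.2 + (cond s ![2, 1, 2, 3, 2, 1, 2, 3] ![3, 0, 1, 0, 3, 0, 1, 0] : Fin 8 → Fin 4) d.1)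

/-- The involution of the last diagram. -/
def oppL : Dart 8 → Dart 8 := Ex.D12.opp

theorem psi_spec : ∀ s : Bool, ∀ a : Fin 8, ∀ b : Fin 4,
    psi s (rot (a, b)) = rot (psi s (a, b)) ∧
    psi s (join (a, b)) = oppL (psi s (a, b)) ∧
    (IsOver (psi s (a, b)) ↔ ((b = 1 ∨ b = 3) ↔ (word s a).2 = true)) := by decide

theorem psi_inj : ∀ s : Bool, ∀ a : Fin 8, ∀ b : Fin 4, ∀ c : Fin 8, ∀ d : Fin 4,
    psi s (a, b) = psi s (c, d) → (a, b) = (c, d) := by
  have h1 : ∀ s : Bool, ∀ a c : Fin 8,
      (cond s ![1, 0, 5, 6, 3, 2, 7, 4] ![0, 1, 4, 7, 2, 3, 6, 5] : Fin 8 → Fin 8) a = (cond s ![1, 0, 5, 6, 3, 2, 7, 4] ![0, 1, 4, 7, 2, 3, 6, 5] : Fin 8 → Fin 8) c → a = c := by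
    decide
  intro s a b c d h
  simp only [psi, Prod.mk.injEq] at h
  obtain ⟨h2, h3⟩ := h
  have h4 := h1 s a c h2
  subst h4
  rw [add_left_inj] at h3
  rw [h3]

theorem psi_bij (s : Bool) : Function.Bijective (psi s) := by
  rw [Finite.injective_iff_bijective.symm]
  intro x y h
  exact psi_inj s x.1 x.2 y.1 y.2 h

/-- The last diagram of the sequence is a diagram of the closure of the braid. -/
theorem isClosure_last (s : Bool) : IsClosure (word s) Ex.D12 := by
  refine ⟨Equiv.ofBijective (psi s) (psi_bij s), ?_, ?_, ?_⟩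
  · intro d
    exact (psi_spec s d.1 d.2).1
  · intro c k
    exact (psi_spec s c k).2.2
  · intro c c' k k' hk hk' hp hf
    obtain ⟨h1, h2, h3⟩ := join_top s c k hk
    change oppL (psi s (c, k)) = psi s (c', k')
    rw [← (psi_spec s c k).2.1]
    congr 1
    -- uniqueness of the next crossing
    obtain ⟨⟨k1, hk1⟩, m, hm, hc', hj⟩ := hf
    obtain ⟨⟨k2, hk2⟩, m', hm', hc'', hj'⟩ := h3
    have hmm : m = m' := by
      rcases lt_trichotomy m m' with h | h | h
      · exact absurd hk1 (by rw [hc']; exact hj' m hm h k1)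
      · exact h
      · exact absurd hk2 (by rw [hc'']; exact hj m' hm' h k2)
    subst hmm
    have hcc : (join (c, k)).1 = c' := by rw [hc', hc'']
    rw [hcc] at h2
    have key : ∀ s : Bool, ∀ c' : Fin 8, ∀ a b : Fin 4, (a = 0 ∨ a = 3) → (b = 0 ∨ b = 3) →
        position (word s c') a = position (word s c') b → a = b := by decide
    have hkk := key s c' _ _ h1 hk' (h2.symm.trans hp)
    exact Prod.ext hcc hkk

/-- Any diagram of the closure of the braid is reached from the matched diagram. -/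
theorem sameKnot {s : Bool} {K : Diagram} (hK : IsClosure (word s) K) :
    K.SameKnot Ex.D0 := by
  obtain ⟨φ, h1, h2, h3⟩ := hK
  have hopp := opp_of_isClosure h3
  have hlast : Ex.D11.R2 K := by
    refine R2_iso Ex.step11 (fun d => psi s (φ.symm d)) ((psi_bij s).comp φ.symm.bijective)
      ?_ ?_ ?_
    · intro d
      have h4 : φ.symm (rot d) = rot (φ.symm d) := by
        apply φ.injective
        rw [h1, Equiv.apply_symm_apply, Equiv.apply_symm_apply]
      change psi s (φ.symm (rot d)) = rot (psi s (φ.symm d))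
      rw [h4]
      exact (psi_spec s _ _).1
    · intro d
      have h4 := h2 (φ.symm d).1 (φ.symm d).2
      rw [Prod.mk.eta, Equiv.apply_symm_apply] at h4
      rw [h4]
      exact (psi_spec s _ _).2.2
    · intro d
      have h4 : φ.symm (K.opp d) = join (φ.symm d) := by
        apply φ.injective
        rw [← hopp, Equiv.apply_symm_apply, Equiv.apply_symm_apply]
      change psi s (φ.symm (K.opp d)) = _
      rw [h4]
      exact (psi_spec s _ _).2.1
  have hR : Ex.D0.SameKnot K := 
    Relation.ReflTransGen.head (Or.inr (Or.inr (Or.inr (Or.inl Ex.step0)))) <|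
    Relation.ReflTransGen.head (Or.inr (Or.inr (Or.inr (Or.inr (Or.inl Ex.step1))))) <|
    Relation.ReflTransGen.head (Or.inr (Or.inr (Or.inr (Or.inr (Or.inl Ex.step2))))) <|
    Relation.ReflTransGen.head (Or.inr (Or.inr (Or.inl Ex.step3))) <|
    Relation.ReflTransGen.head (Or.inr (Or.inr (Or.inr (Or.inr (Or.inl Ex.step4))))) <|
    Relation.ReflTransGen.head (Or.inr (Or.inr (Or.inl Ex.step5))) <|
    Relation.ReflTransGen.head (Or.inr (Or.inr (Or.inr (Or.inl Ex.step6)))) <|
    Relation.ReflTransGen.head (Or.inr (Or.inr (Or.inr (Or.inr (Or.inl Ex.step7))))) <|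
    Relation.ReflTransGen.head (Or.inr (Or.inr (Or.inr (Or.inr (Or.inl Ex.step8))))) <|
    Relation.ReflTransGen.head (Or.inr (Or.inr (Or.inl Ex.step9))) <|
    Relation.ReflTransGen.head (Or.inr (Or.inr (Or.inr (Or.inr (Or.inl Ex.step10))))) <|
    Relation.ReflTransGen.single (Or.inr (Or.inr (Or.inl hlast)))
  exact SameKnot.symm hR

theorem main (s : Bool) : (∃ K, IsClosure (word s) K) ∧
    ∀ K, IsClosure (word s) K → K.IsBipartite ∧ ∃ D, K.SameKnot D ∧ D.IsMatched ∧ D.n = 12 :=
  ⟨⟨_, isClosure_last s⟩, fun _ hK => ⟨⟨Ex.D0, sameKnot hK, isMatched⟩,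
    ⟨Ex.D0, sameKnot hK, isMatched, rfl⟩⟩⟩

end Q174.MD
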